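import Pool.Agent.Helper26.HI.Defs

/-!
# HI, block HC7: zeros of a polynomial in an affine box (Schwartz-Zippel)
-/

set_option autoImplicit false

namespace Pool.Agent.Helper26.HI

open MvPolynomial

noncomputable section

/-- the affine map of the box -/
private def af60 {r : ℕ} (t₀ : Fin r → ℤ) (p : ℕ) (u : Fin r → ℕ) (k : Fin r) : ℤ := t₀ k + p * (u k : ℤ)

private theorem af60_inj {r : ℕ} (t₀ : Fin r → ℤ) {p : ℕ} (hp : 0 < p) : Function.Injective (af60 t₀ p) := by
  intro u v h
  funext k
  have h1 := congrFun h k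
  unfold af60 at h1
  have h2 : (p : ℤ) * (u k : ℤ) = p * (v k : ℤ) := by linarith
  have h3 := mul_left_cancel₀ (by exact_mod_cast hp.ne' : (p : ℤ) ≠ 0) h2
  exact_mod_cast h3

/-- **HC7**: zeros of a polynomial in an affine box -/
theorem sz_affine {r : ℕ} (R : MvPolynomial (Fin r) ℤ) (hR : R ≠ 0) (δ : ℕ) (hδ : R.totalDegree ≤ δ)
    (t₀ : Fin r → ℤ) (p h : ℕ) (hp : 0 < p) :
    h * ((box r h).filter fun u : Fin r → ℕ => eval (fun k => t₀ k + p * (u k : ℤ)) R = 0).card ≤ δ * h ^ r := by
  rcases Nat.eq_zero_or_pos h with rfl | hh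
  · rw [zero_mul]
    exact Nat.zero_le _
  let S : Fin r → Finset ℤ := fun k => (Finset.range h).image fun u : ℕ => t₀ k + p * (u : ℤ)
  have hS : ∀ k, (S k).card = h := by
    intro k
    rw [Finset.card_image_of_injective, Finset.card_range]
    intro u v huv
    have h2 : (p : ℤ) * (u : ℤ) = p * (v : ℤ) := by
      have : t₀ k + p * (u : ℤ) = t₀ k + p * (v : ℤ) := huv
      linarith
    have h3 := mul_left_cancel₀ (by exact_mod_cast hp.ne' : (p : ℤ) ≠ 0) h2
    exact_mod_cast h3
  have h1 := schwartz_zippel_sup_sum hR S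
  simp only [hS] at h1
  have h2 : ((box r h).filter fun u : Fin r → ℕ => eval (fun k => t₀ k + p * (u k : ℤ)) R = 0).card ≤
      (Finset.filter (fun x => eval x R = 0) (Fintype.piFinset S)).card := by
    apply Finset.card_le_card_of_injOn (af60 t₀ p)
    · intro u hu
      rw [Finset.mem_coe, Finset.mem_filter, mem_box] at hu
      rw [Finset.mem_coe, Finset.mem_filter, Fintype.mem_piFinset]
      refine ⟨fun k => ?_, hu.2⟩
      exact Finset.mem_image.2 ⟨u k, Finset.mem_range.2 (hu.1 k), rfl⟩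
    · exact (af60_inj t₀ hp).injOn
  have h3 : R.support.sup (fun s => ∑ i, ((s i : ℚ≥0) / (h : ℚ≥0))) ≤ (δ : ℚ≥0) / h := by
    refine Finset.sup_le fun s hs => ?_
    rw [← Finset.sum_div]
    have h4 : ∑ i, (s i : ℚ≥0) ≤ δ := by
      have h5 : (s.sum fun _ e => e) ≤ R.totalDegree := le_totalDegree hs
      rw [Finsupp.sum_fintype _ _ fun _ => rfl] at h5
      exact_mod_cast h5.trans hδ
    gcongr
  have h4 := h1.trans h3
  rw [Finset.prod_const, Finset.card_univ, Fintype.card_fin, div_le_div_iff₀ (by positivity) (by positivity)] at h4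
  have h5 : (Finset.filter (fun x => eval x R = 0) (Fintype.piFinset S)).card * h ≤ δ * h ^ r := by exact_mod_cast h4
  calc _ ≤ h * (Finset.filter (fun x => eval x R = 0) (Fintype.piFinset S)).card := Nat.mul_le_mul_left _ h2
    _ = (Finset.filter (fun x => eval x R = 0) (Fintype.piFinset S)).card * h := mul_comm _ _
    _ ≤ _ := h5

end

end Pool.Agent.Helper26.HI
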